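import Pool.Agent.H336R5.PS.Defs

set_option autoImplicit false

namespace Pool.Agent.H169R5.PS

open Pool.Agent.H336R5.PS Finset

lemma D_pos (P U : Finset ℕ) (hP : ∀ p ∈ P, p.Prime) (hU : U ⊆ P) : 0 < D U :=
  Finset.prod_pos fun p hp => (hP p (hU hp)).pos

lemma D_inj (P U V : Finset ℕ) (hP : ∀ p ∈ P, p.Prime) (hU : U ⊆ P) (hV : V ⊆ P)
    (h : D U = D V) : U = V := by
  have h1 := Nat.primeFactors_prod (s := U) fun p hp => hP p (hU hp)
  have h2 := Nat.primeFactors_prod (s := V) fun p hp => hP p (hV hp)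
  unfold D at h
  rw [← h1, ← h2, h]

lemma D_sdiff (P V : Finset ℕ) (hV : V ⊆ P) : D (P \ V) * D V = D P :=
  Finset.prod_sdiff hV

lemma fiber_sum (S : Finset (Finset ℕ × Finset ℕ)) (g : Finset ℕ × Finset ℕ → ℕ) (N : ℕ) (c : ℂ)
    (h : ℕ → ℂ) :
    ∑ n ∈ Finset.Icc 1 N, c * ((S.filter (fun x => g x = n)).card : ℂ) * h n =
      ∑ x ∈ S, c * (if g x ∈ Finset.Icc 1 N then h (g x) else 0) := by
  calc _ = ∑ n ∈ Finset.Icc 1 N, ∑ x ∈ S, c * (if g x = n then h n else 0) := by
        refine Finset.sum_congr rfl fun n _ => ?_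
        rw [Finset.card_filter]
        push_cast
        rw [mul_assoc, Finset.sum_mul, Finset.mul_sum]
        refine Finset.sum_congr rfl fun x _ => ?_
        split_ifs <;> simp
    _ = ∑ x ∈ S, ∑ n ∈ Finset.Icc 1 N, c * (if g x = n then h n else 0) := Finset.sum_comm
    _ = _ := by
        refine Finset.sum_congr rfl fun x _ => ?_
        rw [← Finset.mul_sum, Finset.sum_ite_eq]

lemma natpow (n : ℕ) (hn : 0 < n) (t : ℝ) :
    (n : ℂ) ^ (-((t : ℂ) * Complex.I)) = Complex.exp (Complex.I * ((t * (-Real.log n) : ℝ) : ℂ)) := by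
  rw [Complex.cpow_def_of_ne_zero (by exact_mod_cast hn.ne'), ← Complex.natCast_log]
  congr 1
  push_cast
  ring

theorem taskG2 : TaskG2 := by
  intro P hP N hN t
  have hA : 0 < D P := D_pos P P hP (Finset.Subset.refl _)
  set A := D P with hAdef
  set m := N / A with hm
  have hmA : m * A ≤ N := Nat.div_mul_le_self N A
  have hAm : A ≤ m := by
    rw [hm, Nat.le_div_iff_mul_le hA]
    nlinarith
  have hN2 : N < m * A + A := by
    have h2 := Nat.div_add_mod N A
    have h3 := Nat.mod_lt N hA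
    rw [← hm] at h2
    nlinarith
  have hm1 : 0 < m := lt_of_lt_of_le hA hAm
  set S := P.powerset ×ˢ P.powerset with hS
  set e : Finset ℕ × Finset ℕ → ℂ := fun x =>
    Complex.exp (Complex.I * ((t * (Real.log (D x.2) - Real.log (D x.1)) : ℝ) : ℂ)) with he
  set c0 : ℂ := Complex.exp (Complex.I * ((t * (-Real.log ((m * A : ℕ) : ℝ)) : ℝ) : ℂ)) with hc0
  have hmem : ∀ x ∈ S, x.1 ⊆ P ∧ x.2 ⊆ P := by
    intro x hx
    rw [hS, Finset.mem_product, Finset.mem_powerset, Finset.mem_powerset] at hx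
    exact hx
  have hiff : ∀ x ∈ S, (m * D (P \ x.2) * D x.1 ∈ Finset.Icc 1 N ↔ D x.1 ≤ D x.2) := by
    intro x hx
    obtain ⟨h1, h2⟩ := hmem x hx
    have hd := D_sdiff P x.2 h2
    have hp1 := D_pos P x.1 hP h1
    have hp2 := D_pos P x.2 hP h2
    have hp3 := D_pos P (P \ x.2) hP Finset.sdiff_subset
    rw [Finset.mem_Icc]
    constructor
    · rintro ⟨-, h3⟩
      by_contra hcon
      push Not at hcon
      have h4 : m * D (P \ x.2) * (D x.2 + 1) ≤ m * D (P \ x.2) * D x.1 :=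
        Nat.mul_le_mul_left _ hcon
      have h5 : m * D (P \ x.2) * (D x.2 + 1) = m * A + m * D (P \ x.2) := by
        rw [mul_add, mul_one, mul_assoc, hd]
      have h6 : m ≤ m * D (P \ x.2) := Nat.le_mul_of_pos_right _ hp3
      omega
    · intro h3
      refine ⟨Nat.mul_pos (Nat.mul_pos hm1 hp3) hp1, ?_⟩
      calc m * D (P \ x.2) * D x.1 ≤ m * D (P \ x.2) * D x.2 := Nat.mul_le_mul_left _ h3
        _ = m * A := by rw [mul_assoc, hd]
        _ ≤ N := hmA
  have hval : ∀ x ∈ S, ((m * D (P \ x.2) * D x.1 : ℕ) : ℂ) ^ (-((t : ℂ) * Complex.I)) =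
      c0 * e x := by
    intro x hx
    obtain ⟨h1, h2⟩ := hmem x hx
    have hd := D_sdiff P x.2 h2
    have hp1 := D_pos P x.1 hP h1
    have hp2 := D_pos P x.2 hP h2
    have hp3 := D_pos P (P \ x.2) hP Finset.sdiff_subset
    rw [natpow _ (Nat.mul_pos (Nat.mul_pos hm1 hp3) hp1), hc0, he, ← Complex.exp_add, ← mul_add,
      ← Complex.ofReal_add, ← mul_add]
    have hlog : -Real.log ((m * D (P \ x.2) * D x.1 : ℕ) : ℝ) =
        -Real.log ((m * A : ℕ) : ℝ) + (Real.log (D x.2) - Real.log (D x.1)) := by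
      have hd' : A = D (P \ x.2) * D x.2 := hd.symm
      rw [hd']
      push_cast
      have q0 : (m : ℝ) ≠ 0 := by positivity
      have q1 : (D x.1 : ℝ) ≠ 0 := by positivity
      have q2 : (D x.2 : ℝ) ≠ 0 := by positivity
      have q3 : (D (P \ x.2) : ℝ) ≠ 0 := by positivity
      rw [Real.log_mul (mul_ne_zero q0 q3) q1, Real.log_mul q0 q3,
        Real.log_mul q0 (mul_ne_zero q3 q2), Real.log_mul q3 q2]
      ring
    rw [hlog]
  have hsum : ∑ n ∈ Finset.Icc 1 N, coef P m n * (n : ℂ) ^ (-((t : ℂ) * Complex.I)) =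
      c0 * (1 + (1 / 2 : ℂ) ^ P.card * ∑ x ∈ S.filter (fun x => D x.1 < D x.2), e x) := by
    unfold coef
    rw [← hS, fiber_sum S (fun x => m * D (P \ x.2) * D x.1) N ((1 / 2 : ℂ) ^ P.card)
      (fun n => (n : ℂ) ^ (-((t : ℂ) * Complex.I)))]
    have h1 : ∀ x ∈ S, (1 / 2 : ℂ) ^ P.card * (if m * D (P \ x.2) * D x.1 ∈ Finset.Icc 1 N then
        ((m * D (P \ x.2) * D x.1 : ℕ) : ℂ) ^ (-((t : ℂ) * Complex.I)) else 0) =
        c0 * (1 / 2 : ℂ) ^ P.card * ((if D x.1 < D x.2 then e x else 0) +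
          (if x.1 = x.2 then 1 else 0)) := by
      intro x hx
      obtain ⟨g1, g2⟩ := hmem x hx
      rw [hval x hx]
      simp only [hiff x hx]
      rcases lt_trichotomy (D x.1) (D x.2) with h | h | h
      · have hne : x.1 ≠ x.2 := by
          intro heq; rw [heq] at h; exact lt_irrefl _ h
        rw [if_pos h.le, if_pos h, if_neg hne]
        ring
      · have heq : x.1 = x.2 := D_inj P _ _ hP g1 g2 h
        have hex : e x = 1 := by
          rw [he]; simp [heq]
        rw [if_pos h.le, if_neg (by rw [h]; exact lt_irrefl _), if_pos heq, hex]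
        ring
      · have hne : x.1 ≠ x.2 := by
          intro heq; rw [heq] at h; exact lt_irrefl _ h
        rw [if_neg (not_le.2 h), if_neg (not_lt.2 h.le), if_neg hne]
        ring
    rw [Finset.sum_congr rfl h1, ← Finset.mul_sum, Finset.sum_add_distrib, ← Finset.sum_filter]
    have h2 : ∑ x ∈ S, (if x.1 = x.2 then (1 : ℂ) else 0) = 2 ^ P.card := by
      rw [hS, Finset.sum_product]
      have h3 : ∀ U ∈ P.powerset, ∑ V ∈ P.powerset, (if U = V then (1 : ℂ) else 0) = 1 := by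
        intro U hU
        rw [Finset.sum_ite_eq, if_pos hU]
      simp only
      rw [Finset.sum_congr rfl h3, Finset.sum_const, Finset.card_powerset]
      simp
    rw [h2]
    have h3 : (1 / 2 : ℂ) ^ P.card * 2 ^ P.card = 1 := by
      rw [← mul_pow]; norm_num
    linear_combination c0 * h3
  rw [hsum, norm_mul]
  have hn0 : ‖c0‖ = 1 := by
    rw [hc0, mul_comm]
    exact Complex.norm_exp_ofReal_mul_I _
  rw [hn0, one_mul]
  have hF : (1 + (1 / 2 : ℂ) ^ P.card * ∑ x ∈ S.filter (fun x => D x.1 < D x.2), e x) =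
      (1 + F P t) / 2 := by
    unfold F
    rw [← hS]
    ring
  rw [hF, norm_div]
  norm_num

end Pool.Agent.H169R5.PS
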